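import Mathlib

/-!
# A recurrent uniform shift model on each `d`-ary tree

For `K ≥ max (d ^ 2) 2` let `a` be the periodic rotor sequence on the `d`-ary tree with period word
`(0, …, 0, 1, 2, …, d)` with `K` zeros. We show that the rotor walk of the uniform shift model
built from `a` is recurrent with probability one.

If the rotor `0` at the root is used less than `n` times, then a vertex of depth `j` is entered from
its parent at most `max 1 (n - j)` times. So from depth `n` on the walk only uses initial pieces of
the rotor sequences without a zero, and it can enter a child of `v` only if the sequence of `v` does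
not start with `0`, which has probability `d / (K + d)`. As `d * d / (K + d) < 1`, the walk would
visit only finitely many vertices.
-/

set_option autoImplicit false

open MeasureTheory Finset Filter Topology
open scoped ENNReal

namespace Pool.Agent.Results.MP_c4c6a0_pr.RecurrentShift

/-! ### Definitions -/

section Defs

variable {d : ℕ}

/-- A vertex of the `d`-ary tree is the list of the child indices on the path from it up to the
root `[]`: the children of `v` are the lists `i :: v`. The rotor value `0` points to the parent
`v.tail` (the root itself if `v` is the root), and the value `i + 1` points to the `i`-th child. -/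
def move (v : List (Fin d)) (r : Fin (d + 1)) : List (Fin d) :=
  Fin.cases v.tail (fun i => i :: v) r

/-- The position of the particle and the numbers of departures from the vertices, at time `t`, for
the configuration `A`. The rotor sequences are indexed from `0`. -/
def state (A : List (Fin d) → ℕ → Fin (d + 1)) : ℕ → List (Fin d) × (List (Fin d) → ℕ)
  | 0 => ([], fun _ => 0)
  | t + 1 => (move (state A t).1 (A (state A t).1 ((state A t).2 (state A t).1)),
      Function.update (state A t).2 (state A t).1 ((state A t).2 (state A t).1 + 1))

/-- The rotor walk visits the root infinitely many times. -/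
def Recurrent (A : List (Fin d) → ℕ → Fin (d + 1)) : Prop := ∀ N, ∃ t ≥ N, (state A t).1 = []

/-- Each rotor value occurs infinitely often. -/
def NonDegenerate (a : ℕ → Fin (d + 1)) : Prop := ∀ r N, ∃ x ≥ N, a x = r

/-- The law of independent shifts, each uniform on `{0, …, L - 1}`. -/
noncomputable def shiftLaw (d L : ℕ) [NeZero L] : Measure (List (Fin d) → Fin L) :=
  Measure.infinitePi fun _ => (PMF.uniformOfFintype (Fin L)).toMeasure

/-- The configuration of the uniform shift model: the rotor sequence of `v` is `a` shifted
by `k v`. -/
def config {L : ℕ} (a : ℕ → Fin (d + 1)) (k : List (Fin d) → Fin L) (v : List (Fin d)) (x : ℕ) :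
    Fin (d + 1) := a (x + k v)

/-- The sequence with period word `(0, …, 0, 1, 2, …, d)` with `K` zeros. -/
def word (d K : ℕ) (x : ℕ) : Fin (d + 1) := Fin.ofNat (d + 1) ((x % (K + d)) + 1 - K)

end Defs

/-! ### The deterministic part -/

section Det

variable {d : ℕ} (A : List (Fin d) → ℕ → Fin (d + 1))

/-- Number of `y < x` with `A v y = r`. -/
def num (v : List (Fin d)) (r : Fin (d + 1)) (x : ℕ) : ℕ := ∑ y ∈ range x, if A v y = r then 1 else 0

theorem num_succ (v : List (Fin d)) (r : Fin (d + 1)) (x : ℕ) :
    num A v r (x + 1) = num A v r x + if A v x = r then 1 else 0 := by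
  rw [num, sum_range_succ, num]

/-- The set of vertices that can be reached from depth `n` on. -/
def good (n : ℕ) : Set (List (Fin d)) :=
  {v | ∀ w, w <:+ v → w ≠ v → n ≤ w.length → A w 0 ≠ 0}

/-- The invariants. -/
structure Inv (n t : ℕ) : Prop where
  bal : ∀ i w, num A w (Fin.succ i) ((state A t).2 w) = num A (i :: w) 0 ((state A t).2 (i :: w)) +
    if (i :: w) <:+ (state A t).1 then 1 else 0
  bd : ∀ i w, num A w (Fin.succ i) ((state A t).2 w) ≤ max 1 (n - (w.length + 1))
  gd : ∀ i w, 0 < num A w (Fin.succ i) ((state A t).2 w) → (i :: w) ∈ good A n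

theorem Inv.pos_mem {n t : ℕ} (h : Inv A n t) : (state A t).1 ∈ good A n := by
  rcases hv : (state A t).1 with _ | ⟨i, w⟩
  · intro w hw hne
    rw [List.suffix_nil] at hw
    exact absurd hw hne
  · apply h.gd
    rw [h.bal, hv, if_pos (List.suffix_refl _)]
    omega

theorem inv_all {K n : ℕ} (hn : 1 ≤ n) (hK : 2 ≤ K)
    (hA : ∀ v i x, num A v (Fin.succ i) x ≤ 1 + num A v 0 x / K)
    (hroot : ∀ t, num A [] 0 ((state A t).2 []) < n) (t : ℕ) : Inv A n t := by
  induction t with
  | zero =>
    refine ⟨fun i w => ?_, fun i w => ?_, fun i w h => ?_⟩
    · simp [state, num]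
    · simp [state, num]
    · simp [state, num] at h
  | succ t ih =>
    set v := (state A t).1 with hv
    set u := (state A t).2 with hu
    -- number of zeros used at the current vertex
    have hz : num A v 0 (u v) ≤ max 1 (n - v.length) - 1 := by
      rcases hv' : v with _ | ⟨i, w⟩
      · have := hroot t
        rw [← hu] at this
        simp only [List.length_nil]
        omega
      · have h1 := ih.bal i w
        have h2 := ih.bd i w
        rw [← hu, ← hv, hv', if_pos (List.suffix_refl _)] at h1
        rw [← hu] at h2
        rw [List.length_cons]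
        omega
    have hpos : (state A (t + 1)).1 = move v (A v (u v)) := rfl
    have hcnt : (state A (t + 1)).2 = Function.update u v (u v + 1) := rfl
    have hother : ∀ w r, w ≠ v → num A w r ((state A (t + 1)).2 w) = num A w r (u w) := by
      intro w r hw
      rw [hcnt, Function.update_of_ne hw]
    have hsame : ∀ r, num A v r ((state A (t + 1)).2 v) = num A v r (u v) +
        if A v (u v) = r then 1 else 0 := by
      intro r
      rw [hcnt, Function.update_self, num_succ]
    rcases Fin.eq_zero_or_eq_succ (A v (u v)) with hr | ⟨j, hr⟩
    · -- the particle moves to the parent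
      have hsame' : ∀ w i, num A w (Fin.succ i) ((state A (t + 1)).2 w) =
          num A w (Fin.succ i) (u w) := by
        intro w i
        by_cases hw : w = v
        · rw [hw, hsame, hr, if_neg (Fin.succ_ne_zero i).symm, add_zero]
        · exact hother w _ hw
      have hpos' : (state A (t + 1)).1 = v.tail := by rw [hpos, hr]; rfl
      refine ⟨fun i w => ?_, fun i w => ?_, fun i w h => ?_⟩
      · rw [hsame', hpos']
        have h1 := ih.bal i w
        rw [← hu, ← hv] at h1
        rw [h1]
        by_cases hw : i :: w = v
        · rw [← hw, if_pos (List.suffix_refl _), hw, hsame, hr, if_pos rfl, ← hw, if_neg]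
          simp only [List.tail_cons]
          intro h
          have := h.length_le
          simp at this
        · rw [hother _ _ hw]
          congr 1
          have h2 : (i :: w) <:+ v ↔ (i :: w) <:+ v.tail := by
            rcases v with _ | ⟨j, v'⟩
            · rfl
            · rw [List.suffix_cons_iff, List.tail_cons]
              exact or_iff_right hw
          simp only [h2]
      · rw [hsame']
        exact ih.bd i w
      · rw [hsame'] at h
        exact ih.gd i w h
    · -- the particle moves to a child
      have hpos' : (state A (t + 1)).1 = j :: v := by rw [hpos, hr]; rfl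
      have hzero : ∀ w, num A w 0 ((state A (t + 1)).2 w) = num A w 0 (u w) := by
        intro w
        by_cases hw : w = v
        · rw [hw, hsame, hr, if_neg (Fin.succ_ne_zero j), add_zero]
        · exact hother w _ hw
      have hnew : num A v (Fin.succ j) ((state A (t + 1)).2 v) ≤ max 1 (n - (v.length + 1)) := by
        refine (hA v j _).trans ?_
        rw [hzero]
        have h1 : num A v 0 (u v) / K ≤ num A v 0 (u v) / 2 :=
          Nat.div_le_div_left hK (by norm_num)
        omega
      have hchild : ∀ w i, (w = v ∧ i = j) ∨ num A w (Fin.succ i) ((state A (t + 1)).2 w) =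
          num A w (Fin.succ i) (u w) := by
        intro w i
        by_cases hw : w = v
        · by_cases hi : i = j
          · exact Or.inl ⟨hw, hi⟩
          · right
            rw [hw, hsame, hr, if_neg, add_zero]
            intro h
            exact hi (Fin.succ_injective _ h).symm
        · exact Or.inr (hother w _ hw)
      refine ⟨fun i w => ?_, fun i w => ?_, fun i w h => ?_⟩
      · rw [hzero, hpos']
        have h1 := ih.bal i w
        rw [← hu, ← hv] at h1
        have hlen : ¬ (j :: v) <:+ v := fun h => by
          have := h.length_le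
          simp at this
        rcases hchild w i with ⟨rfl, rfl⟩ | h2
        · rw [hsame, hr, if_pos rfl, if_pos (List.suffix_refl _), h1, if_neg hlen]
        · rw [h2, h1]
          congr 1
          by_cases h3 : i :: w = j :: v
          · -- then the child count has changed
            exfalso
            rw [List.cons.injEq] at h3
            obtain ⟨rfl, rfl⟩ := h3
            rw [hsame, hr, if_pos rfl] at h2
            omega
          · have h4 : (i :: w) <:+ (j :: v) ↔ (i :: w) <:+ v := by
              rw [List.suffix_cons_iff]
              exact or_iff_right h3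
            simp only [h4]
      · rcases hchild w i with ⟨rfl, rfl⟩ | h2
        · exact hnew
        · rw [h2]; exact ih.bd i w
      · rcases hchild w i with ⟨rfl, rfl⟩ | h2
        · intro w' hw' hne hlen
          rw [List.suffix_cons_iff] at hw'
          rcases hw' with h3 | h3
          · exact absurd h3 hne
          · by_cases h4 : w' = v
            · rw [h4] at hlen ⊢
              have h5 : num A v 0 (u v) = 0 := by omega
              rcases Nat.eq_zero_or_pos (u v) with h6 | h6
              · rw [h6] at hr
                rw [hr]
                exact Fin.succ_ne_zero _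
              · intro h7
                rw [num, sum_eq_zero_iff] at h5
                have h8 := h5 0 (mem_range.2 h6)
                rw [if_pos h7] at h8
                exact absurd h8 one_ne_zero
            · exact Inv.pos_mem A ih w' h3 h4 hlen
        · rw [h2] at h
          exact ih.gd i w h

/-- The number of departures from `v` before time `t`. -/
theorem num_departures (v : List (Fin d)) (t : ℕ) :
    (state A t).2 v = ∑ s ∈ range t, if (state A s).1 = v then 1 else 0 := by
  induction t with
  | zero => simp [state]
  | succ t ih =>
    rw [sum_range_succ, ← ih]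
    show Function.update (state A t).2 (state A t).1 ((state A t).2 (state A t).1 + 1) v = _
    by_cases h : (state A t).1 = v
    · rw [if_pos h, ← h, Function.update_self]
    · rw [if_neg h, Function.update_of_ne (Ne.symm h), add_zero]

/-- If a vertex is visited infinitely often then so is its parent. -/
theorem parent_inf (hA : ∀ v N, ∃ x ≥ N, A v x = 0) {v : List (Fin d)}
    (h : ∀ N, ∃ t ≥ N, (state A t).1 = v) : ∀ N, ∃ t ≥ N, (state A t).1 = v.tail := by
  intro N
  -- the number of departures takes all values
  have hinf : ∀ x, ∃ t, x ≤ (state A t).2 v := by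
    intro x
    induction x with
    | zero => exact ⟨0, Nat.zero_le _⟩
    | succ x ih =>
      obtain ⟨t, ht⟩ := ih
      obtain ⟨s, hs, hs'⟩ := h t
      refine ⟨s + 1, ?_⟩
      rw [num_departures, sum_range_succ, if_pos hs', ← num_departures]
      have hmono : (state A t).2 v ≤ (state A s).2 v := by
        rw [num_departures, num_departures]
        exact sum_le_sum_of_subset (range_subset_range.2 hs)
      omega
  obtain ⟨x, hx, hx'⟩ := hA v ((state A N).2 v)
  obtain ⟨t, ht⟩ := hinf (x + 1)
  -- the departure number `x` happens at some time
  have hex : ∃ s, (state A s).1 = v ∧ (state A s).2 v = x := by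
    clear hx hx'
    induction t with
    | zero => simp [state] at ht
    | succ t ih =>
      by_cases h1 : x + 1 ≤ (state A t).2 v
      · exact ih h1
      · rw [num_departures, sum_range_succ, ← num_departures] at ht
        by_cases h2 : (state A t).1 = v
        · rw [if_pos h2] at ht
          exact ⟨t, h2, by omega⟩
        · rw [if_neg h2] at ht
          omega
  obtain ⟨s, hs, hs'⟩ := hex
  have hsN : N ≤ s := by
    by_contra hcon
    push Not at hcon
    have h1 : (state A (s + 1)).2 v ≤ (state A N).2 v := by
      rw [num_departures, num_departures]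
      exact sum_le_sum_of_subset (range_subset_range.2 hcon)
    rw [num_departures, sum_range_succ, if_pos hs, ← num_departures, hs'] at h1
    omega
  refine ⟨s + 1, by omega, ?_⟩
  show move (state A s).1 (A (state A s).1 ((state A s).2 (state A s).1)) = v.tail
  rw [hs, hs', hx']
  rfl

/-- If only finitely many vertices are visited, the walk is recurrent. -/
theorem recurrent_of_finite (hA : ∀ v N, ∃ x ≥ N, A v x = 0) {S : Set (List (Fin d))}
    (hS : S.Finite) (h : ∀ t, (state A t).1 ∈ S) : Recurrent A := by
  obtain ⟨v, hv, hinf⟩ : ∃ v ∈ S, ∀ N, ∃ t ≥ N, (state A t).1 = v := by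
    by_contra hcon
    push Not at hcon
    choose! N hN using hcon
    obtain ⟨M, hM⟩ := (hS.image N).bddAbove
    exact hN _ (h M) M (hM ⟨_, h M, rfl⟩) rfl
  have : ∀ (k : ℕ) (v : List (Fin d)), v.length ≤ k → (∀ N, ∃ t ≥ N, (state A t).1 = v) →
      Recurrent A := by
    intro k
    induction k with
    | zero =>
      intro v hv h
      rw [Nat.le_zero, List.length_eq_zero_iff] at hv
      rw [hv] at h
      exact h
    | succ k ih =>
      intro v hv h
      refine ih v.tail ?_ (parent_inf A hA h)
      rw [List.length_tail]
      omega
  exact this _ v le_rfl hinf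

/-- The deterministic criterion. -/
theorem recurrent_of_good {K : ℕ} (hK : 2 ≤ K)
    (hA : ∀ v i x, num A v (Fin.succ i) x ≤ 1 + num A v 0 x / K)
    (hA0 : ∀ v N, ∃ x ≥ N, A v x = 0) (h : ∀ n, (good A n).Finite) : Recurrent A := by
  by_contra hcon
  have hcon' := hcon
  unfold Recurrent at hcon
  push Not at hcon
  obtain ⟨N, hN⟩ := hcon
  apply hcon'
  refine recurrent_of_finite A hA0 (h (N + 1)) fun t =>
    Inv.pos_mem A (inv_all A (K := K) (by omega) hK hA (fun t => ?_) t)
  have h1 : (state A t).2 [] ≤ N := by
    rw [num_departures, ← card_filter]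
    calc #{s ∈ range t | (state A s).1 = []} ≤ #(range N) := by
          refine card_le_card fun s hs => ?_
          rw [mem_filter] at hs
          rw [mem_range]
          by_contra h2
          exact hN s (by omega) hs.2
      _ = N := card_range N
  have h2 : num A [] 0 ((state A t).2 []) ≤ (state A t).2 [] := by
    unfold num
    calc _ ≤ ∑ y ∈ range ((state A t).2 []), 1 := sum_le_sum fun y _ => by split_ifs <;> simp
      _ = _ := by simp
  omega

end Det

/-! ### The word -/

section Word

variable {d K : ℕ}

theorem word_periodic : Function.Periodic (word d K) (K + d) := by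
  intro x
  unfold word
  rw [Nat.add_mod_right]

theorem word_val (x : ℕ) (hd : 1 ≤ d) : (word d K x : ℕ) = x % (K + d) + 1 - K := by
  unfold word
  rw [Fin.val_ofNat]
  apply Nat.mod_eq_of_lt
  have := Nat.mod_lt x (show 0 < K + d by omega)
  omega

theorem word_eq_zero_iff (x : ℕ) (hd : 1 ≤ d) : word d K x = 0 ↔ x % (K + d) < K := by
  rw [← Fin.val_eq_zero_iff, word_val x hd]
  omega

theorem word_nonDegenerate (hd : 1 ≤ d) (hK : 1 ≤ K) : NonDegenerate (word d K) := by
  intro r N
  refine ⟨N * (K + d) + (K + r - 1), ?_, ?_⟩
  · nlinarith
  · apply Fin.ext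
    rw [word_val _ hd, Nat.mul_comm, Nat.mul_add_mod, Nat.mod_eq_of_lt]
    · omega
    · have := r.2
      omega

/-- The number of zeros since the last occurrence of `i`. -/
def gap (K d i x : ℕ) : ℕ := if K + i < x % (K + d) then 0 else min (x % (K + d)) K

theorem word_identity (hd : 1 ≤ d) (hK : 1 ≤ K) (k x : ℕ) (i : Fin d) :
    K * (∑ y ∈ range x, if word d K (y + k) = Fin.succ i then 1 else 0) + gap K d i (x + k) =
      (∑ y ∈ range x, if word d K (y + k) = 0 then 1 else 0) + gap K d i k := by
  induction x with
  | zero => simp
  | succ x ih =>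
    rw [sum_range_succ, sum_range_succ, Nat.mul_add]
    have h1 : K * (if word d K (x + k) = Fin.succ i then 1 else 0) + gap K d i (x + 1 + k) =
        (if word d K (x + k) = 0 then 1 else 0) + gap K d i (x + k) := by
      have h2 : word d K (x + k) = Fin.succ i ↔ (x + k) % (K + d) = K + i := by
        rw [Fin.ext_iff, word_val _ hd, Fin.val_succ]
        omega
      simp only [h2, word_eq_zero_iff _ hd]
      unfold gap
      have h3 : (x + k) % (K + d) < K + d := Nat.mod_lt _ (by omega)
      have h4 : (x + 1 + k) % (K + d) = if (x + k) % (K + d) + 1 = K + d then 0 else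
          (x + k) % (K + d) + 1 := by
        rw [show x + 1 + k = (x + k) + 1 by ring, Nat.add_mod_eq_ite]
        by_cases h5 : K + d = 1
        · omega
        · rw [Nat.mod_eq_of_lt (show 1 < K + d by omega)]
          split_ifs <;> omega
      rw [h4]
      have := i.2
      set r := (x + k) % (K + d)
      split_ifs <;> omega
    omega

/-- Between two occurrences of `i` there are `K` zeros. -/
theorem word_count (hd : 1 ≤ d) (hK : 1 ≤ K) (k x : ℕ) (i : Fin d) :
    (∑ y ∈ range x, if word d K (y + k) = Fin.succ i then 1 else 0) ≤
      1 + (∑ y ∈ range x, if word d K (y + k) = 0 then 1 else 0) / K := by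
  have h1 := word_identity hd hK k x i
  have h2 : gap K d i k ≤ K := by
    unfold gap
    split_ifs
    · omega
    · exact min_le_right _ _
  set a := ∑ y ∈ range x, if word d K (y + k) = Fin.succ i then 1 else 0
  set b := ∑ y ∈ range x, if word d K (y + k) = 0 then 1 else 0
  have h3 : a * K ≤ b + K := by rw [Nat.mul_comm]; omega
  have h4 := (Nat.le_div_iff_mul_le (show 0 < K by omega)).2 h3
  rw [Nat.add_div_right _ (by omega)] at h4
  omega

end Word

/-! ### The probabilistic part -/

section Prob

variable {d K : ℕ}

theorem measure_large (hd : 1 ≤ d) [NeZero (K + d)] :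
    (PMF.uniformOfFintype (Fin (K + d))).toMeasure {x : Fin (K + d) | K ≤ (x : ℕ)} =
      (d : ℝ≥0∞) / ((K + d : ℕ) : ℝ≥0∞) := by
  classical
  rw [PMF.toMeasure_uniformOfFintype_apply _ (Set.toFinite _).measurableSet, Fintype.card_fin]
  congr 2
  rw [Fintype.card_of_subtype (Finset.Ici (⟨K, by omega⟩ : Fin (K + d)))]
  · rw [Fin.card_Ici]
    simp
  · intro x
    simp [Fin.le_def]

theorem measure_good_le (hd : 1 ≤ d) [NeZero (K + d)] (n j : ℕ) (v : List (Fin d))
    (hv : v.length = n + j) :
    shiftLaw d (K + d) {k | v ∈ good (config (word d K) k) n} ≤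
      ((d : ℝ≥0∞) / ((K + d : ℕ) : ℝ≥0∞)) ^ j := by
  classical
  set s : Finset (List (Fin d)) := (range j).image fun i => v.drop (i + 1) with hs
  have hlen : ∀ i ∈ range j, (v.drop (i + 1)).length = n + j - (i + 1) := by
    intro i _
    rw [List.length_drop, hv]
  have hcard : #s = j := by
    rw [hs, card_image_of_injOn, card_range]
    intro a ha b hb hab
    have h1 := congrArg List.length hab
    simp only [coe_range, Set.mem_Iio] at ha hb
    simp only [List.length_drop, hv] at h1
    omega
  have hsub : {k | v ∈ good (config (word d K) k) n} ⊆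
      Set.pi (s : Set (List (Fin d))) fun _ => {x : Fin (K + d) | K ≤ (x : ℕ)} := by
    intro k hk w hw
    rw [hs, mem_coe, mem_image] at hw
    obtain ⟨i, hi, rfl⟩ := hw
    have hi' := mem_range.1 hi
    have h1 := hk (v.drop (i + 1)) (List.drop_suffix _ _) (fun h => by
      have := congrArg List.length h
      rw [hlen i hi, hv] at this
      omega) (by rw [hlen i hi]; omega)
    unfold config at h1
    rw [Ne, word_eq_zero_iff _ hd, zero_add, Nat.mod_eq_of_lt (k (v.drop (i + 1))).2] at h1
    simpa using h1
  refine (measure_mono hsub).trans ?_
  unfold shiftLaw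
  rw [Measure.infinitePi_pi _ fun _ _ => (Set.toFinite _).measurableSet, prod_const, hcard,
    measure_large hd]

theorem measure_infinite (hd : 1 ≤ d) (hK : d * d ≤ K) [NeZero (K + d)] (n : ℕ) :
    shiftLaw d (K + d) {k | ¬ (good (config (word d K) k) n).Finite} = 0 := by
  classical
  have h1 : ∀ j : ℕ, shiftLaw d (K + d) {k | ¬ (good (config (word d K) k) n).Finite} ≤
      (d : ℝ≥0∞) ^ n * ((d : ℝ≥0∞) * ((d : ℝ≥0∞) / ((K + d : ℕ) : ℝ≥0∞))) ^ j := by
    intro j
    have hsub : {k : List (Fin d) → Fin (K + d) | ¬ (good (config (word d K) k) n).Finite} ⊆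
        ⋃ g ∈ (univ : Finset (Fin (n + j) → Fin d)),
          {k : List (Fin d) → Fin (K + d) | List.ofFn g ∈ good (config (word d K) k) n} := by
      intro k hk
      have h2 : ∃ v ∈ good (config (word d K) k) n, n + j ≤ v.length := by
        by_contra hcon
        push Not at hcon
        apply hk
        exact (List.finite_length_lt (Fin d) (n + j)).subset fun v hv => hcon v hv
      obtain ⟨v, hv, hlen⟩ := h2
      set v' := v.drop (v.length - (n + j)) with hv'
      have hlen' : v'.length = n + j := by
        rw [hv', List.length_drop]; omega
      have hg : v' ∈ good (config (word d K) k) n := by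
        intro w hw hne hn
        refine hv w (hw.trans (List.drop_suffix _ _)) (fun h => ?_) hn
        rw [h] at hw hne
        have h3 : v' <:+ v := List.drop_suffix _ _
        exact hne (hw.eq_of_length (le_antisymm hw.length_le h3.length_le))
      refine Set.mem_biUnion (x := fun i => v'.get (i.cast hlen'.symm)) (mem_univ _) ?_
      show List.ofFn (fun i : Fin (n + j) => v'.get (i.cast hlen'.symm)) ∈
        good (config (word d K) k) n
      have : List.ofFn (fun i : Fin (n + j) => v'.get (i.cast hlen'.symm)) = v' := by
        apply List.ext_get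
        · simp [hlen']
        · intro m h1 h2
          simp
      rw [this]
      exact hg
    calc shiftLaw d (K + d) {k | ¬ (good (config (word d K) k) n).Finite}
        ≤ ∑ g : Fin (n + j) → Fin d,
          shiftLaw d (K + d) {k | List.ofFn g ∈ good (config (word d K) k) n} :=
          (measure_mono hsub).trans (measure_biUnion_finset_le _ _)
      _ ≤ ∑ g : Fin (n + j) → Fin d, ((d : ℝ≥0∞) / ((K + d : ℕ) : ℝ≥0∞)) ^ j :=
          sum_le_sum fun g _ => measure_good_le hd n j _ (by simp)
      _ = _ := by
          rw [sum_const, card_univ, Fintype.card_fun, Fintype.card_fin, Fintype.card_fin,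
            nsmul_eq_mul, pow_add, Nat.cast_mul, Nat.cast_pow, Nat.cast_pow, mul_pow]
          ring
  have hq : (d : ℝ≥0∞) * ((d : ℝ≥0∞) / ((K + d : ℕ) : ℝ≥0∞)) < 1 := by
    rw [← mul_div_assoc]
    refine ENNReal.div_lt_of_lt_mul ?_
    rw [one_mul]
    exact_mod_cast (show d * d < K + d by omega)
  have h2 : Tendsto (fun j : ℕ => (d : ℝ≥0∞) ^ n *
      ((d : ℝ≥0∞) * ((d : ℝ≥0∞) / ((K + d : ℕ) : ℝ≥0∞))) ^ j) atTop (𝓝 0) := by
    have h3 := ENNReal.Tendsto.const_mul (a := (d : ℝ≥0∞) ^ n)
      (ENNReal.tendsto_pow_atTop_nhds_zero_of_lt_one hq) (Or.inr (by simp))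
    rwa [mul_zero] at h3
  exact le_antisymm (ge_of_tendsto' h2 h1) zero_le

/-- **A recurrent uniform shift model.** Let `d ≥ 3` and `K ≥ d ^ 2`. The rotor sequence with period
word `(0, …, 0, 1, 2, …, d)`, with `K` zeros, is non-degenerate and periodic, and the rotor walk of
the uniform shift model built from it is recurrent with probability one. -/
theorem result (d K : ℕ) (hd : 3 ≤ d) (hK : d ^ 2 ≤ K) [NeZero (K + d)] :
    NonDegenerate (word d K) ∧ Function.Periodic (word d K) (K + d) ∧
      ∀ᵐ k ∂(shiftLaw d (K + d)), Recurrent (config (word d K) k) := by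
  have hK' : d * d ≤ K := by rw [← sq]; exact hK
  have hK2 : 2 ≤ K := by nlinarith
  refine ⟨word_nonDegenerate (by omega) (by omega), word_periodic, ?_⟩
  have h1 : ∀ n, ∀ᵐ k ∂(shiftLaw d (K + d)), (good (config (word d K) k) n).Finite := fun n =>
    ae_iff.2 (measure_infinite (by omega) hK' n)
  filter_upwards [ae_all_iff.2 h1] with k hk
  refine recurrent_of_good _ (K := K) hK2 (fun v i x => ?_) (fun v N => ?_) hk
  · exact word_count (by omega) (by omega) _ _ _
  · obtain ⟨x, hx, hx'⟩ := word_nonDegenerate (d := d) (K := K) (by omega) (by omega) 0 (N + k v)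
    refine ⟨x - k v, by omega, ?_⟩
    unfold config
    rw [Nat.sub_add_cancel (by omega)]
    exact hx'

end Prob

end Pool.Agent.Results.MP_c4c6a0_pr.RecurrentShift
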